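import Pool.Agent.Helper17.RZ.St1

/-!
# RZ-A1: integer valued valuations, similar forms, constants, transport
-/

set_option autoImplicit false

open Pool.Agent.Helper17.RZ

namespace Pool.Agent.Helper46.RZ

universe u

section ZVal

variable {F : Type u} [Field F] (V : ZVal F)

theorem v_one : V.v 1 = 0 := by
  have h := V.mul' 1 1 one_ne_zero one_ne_zero
  rw [mul_one] at h
  omega

theorem v_neg_one : V.v (-1) = 0 := by
  have h := V.mul' (-1) (-1) (neg_ne_zero.mpr one_ne_zero) (neg_ne_zero.mpr one_ne_zero)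
  rw [neg_mul_neg, one_mul, v_one] at h
  omega

theorem v_neg (x : F) : V.v (-x) = V.v x := by
  by_cases hx : x = 0
  · subst hx; rw [neg_zero]
  · have h := V.mul' (-1) x (neg_ne_zero.mpr one_ne_zero) hx
    rw [neg_one_mul, v_neg_one, zero_add] at h
    exact h

theorem v_pow {x : F} (hx : x ≠ 0) (n : ℕ) : V.v (x ^ n) = n * V.v x := by
  induction n with
  | zero => rw [pow_zero, v_one]; simp
  | succ n ih =>
    rw [pow_succ, V.mul' _ _ (pow_ne_zero n hx) hx, ih]
    push_cast; ring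

theorem v_inv {x : F} (hx : x ≠ 0) : V.v x⁻¹ = -V.v x := by
  have h := V.mul' x x⁻¹ hx (inv_ne_zero hx)
  rw [mul_inv_cancel₀ hx, v_one] at h
  omega

theorem v_div {x y : F} (hx : x ≠ 0) (hy : y ≠ 0) : V.v (x / y) = V.v x - V.v y := by
  rw [div_eq_mul_inv, V.mul' _ _ hx (inv_ne_zero hy), v_inv V hy]
  ring

theorem v_sq {x : F} (hx : x ≠ 0) : V.v (x ^ 2) = 2 * V.v x := by
  rw [v_pow V hx]; norm_num

variable {V}

theorem ge_zero (n : ℤ) : V.Ge n 0 := Or.inl rfl

theorem ge_iff {n : ℤ} {x : F} (hx : x ≠ 0) : V.Ge n x ↔ n ≤ V.v x :=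
  ⟨fun h => h.resolve_left hx, Or.inr⟩

theorem ge_self (x : F) : V.Ge (V.v x) x := Or.inr le_rfl

theorem ge_mono {m n : ℤ} (h : m ≤ n) {x : F} (hx : V.Ge n x) : V.Ge m x :=
  hx.imp id fun h' => h.trans h'

theorem ge_neg {n : ℤ} {x : F} (hx : V.Ge n x) : V.Ge n (-x) := by
  rcases hx with rfl | h
  · exact Or.inl neg_zero
  · exact Or.inr (by rw [v_neg]; exact h)

theorem ge_add {n : ℤ} {x y : F} (hx : V.Ge n x) (hy : V.Ge n y) : V.Ge n (x + y) := by
  by_cases hx0 : x = 0
  · subst hx0; rw [zero_add]; exact hy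
  by_cases hy0 : y = 0
  · subst hy0; rw [add_zero]; exact hx
  by_cases h0 : x + y = 0
  · exact Or.inl h0
  · have h := V.add' x y hx0 hy0 h0
    rw [ge_iff hx0] at hx
    rw [ge_iff hy0] at hy
    exact Or.inr ((le_min hx hy).trans h)

theorem ge_sub {n : ℤ} {x y : F} (hx : V.Ge n x) (hy : V.Ge n y) : V.Ge n (x - y) := by
  rw [sub_eq_add_neg]; exact ge_add hx (ge_neg hy)

theorem ge_sum {ι : Type*} (s : Finset ι) (f : ι → F) {n : ℤ} (h : ∀ i ∈ s, V.Ge n (f i)) :
    V.Ge n (∑ i ∈ s, f i) := by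
  classical
  induction s using Finset.induction_on with
  | empty => rw [Finset.sum_empty]; exact ge_zero n
  | insert a s ha ih =>
    rw [Finset.sum_insert ha]
    exact ge_add (h a (Finset.mem_insert_self a s))
      (ih fun i hi => h i (Finset.mem_insert_of_mem hi))

theorem ge_mul {m n : ℤ} {x y : F} (hx : V.Ge m x) (hy : V.Ge n y) : V.Ge (m + n) (x * y) := by
  by_cases hx0 : x = 0
  · subst hx0; rw [zero_mul]; exact ge_zero _
  by_cases hy0 : y = 0
  · subst hy0; rw [mul_zero]; exact ge_zero _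
  rw [ge_iff hx0] at hx
  rw [ge_iff hy0] at hy
  refine Or.inr ?_
  rw [V.mul' x y hx0 hy0]
  omega

theorem ge_pow {m : ℤ} {x : F} (hx : V.Ge m x) (n : ℕ) : V.Ge (n * m) (x ^ n) := by
  induction n with
  | zero => rw [pow_zero]; exact Or.inr (by rw [v_one]; simp)
  | succ n ih =>
    rw [pow_succ]
    refine ge_mono ?_ (ge_mul ih hx)
    push_cast
    linarith

theorem add_of_lt' {x y : F} {n : ℤ} (hx : x ≠ 0) (hy : V.Ge n y) (h : V.v x < n) :
    x + y ≠ 0 ∧ V.v (x + y) = V.v x := by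
  by_cases hy0 : y = 0
  · subst hy0; rw [add_zero]; exact ⟨hx, rfl⟩
  rw [ge_iff hy0] at hy
  have h1 : x + y ≠ 0 := by
    intro h0
    have : x = -y := eq_neg_of_add_eq_zero_left h0
    rw [this, v_neg] at h
    omega
  refine ⟨h1, ?_⟩
  have h2 := V.add' x y hx hy0 h1
  have h3 := V.add' (x + y) (-y) h1 (neg_ne_zero.mpr hy0) (by rw [add_neg_cancel_right]; exact hx)
  rw [add_neg_cancel_right, v_neg] at h3
  have h4 : V.v x ≤ V.v (x + y) := by
    rw [min_eq_left (by omega)] at h2; exact h2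
  rcases min_le_iff.mp h3 with h5 | h5
  · omega
  · omega

theorem add_of_lt {x y : F} (hx : x ≠ 0) (_hy : y ≠ 0) (h : V.v x < V.v y) :
    x + y ≠ 0 ∧ V.v (x + y) = V.v x :=
  add_of_lt' hx (ge_self y) h

/-- a nonzero sum has a nonzero term whose value is at most that of the sum -/
theorem exists_le_of_sum {ι : Type*} (s : Finset ι) (f : ι → F) (h0 : ∑ i ∈ s, f i ≠ 0) :
    ∃ i ∈ s, f i ≠ 0 ∧ V.v (f i) ≤ V.v (∑ i ∈ s, f i) := by
  by_contra hcon
  push Not at hcon
  have h1 : V.Ge (V.v (∑ i ∈ s, f i) + 1) (∑ i ∈ s, f i) := by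
    refine ge_sum s f fun i hi => ?_
    by_cases h : f i = 0
    · exact Or.inl h
    · exact Or.inr (by have := hcon i hi h; omega)
  rw [ge_iff h0] at h1
  omega

end ZVal

theorem lin_apply {F : Type u} [Field F] (M : (Fin 3 → F) ≃ₗ[F] (Fin 3 → F)) (y : Fin 3 → F)
    (i : Fin 3) : M y i = ∑ j, y j * M (Pi.single j 1) i := by
  conv_lhs => rw [pi_eq_sum_univ' y]
  rw [map_sum, Finset.sum_apply]
  refine Finset.sum_congr rfl fun j _ => ?_
  rw [map_smul, Pi.smul_apply, smul_eq_mul]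

theorem ramSim : RamSim.{u} := by
  intro F _ V q q' M m hm hq' hR
  obtain ⟨⟨C, hC⟩, x, y, hx, hy, hpar⟩ := hR
  constructor
  · refine ⟨2 * (∑ i : Fin 3, ∑ j : Fin 3, |V.v (M (Pi.single j 1) i)|) + C - V.v m, ?_⟩
    intro x i hxi
    set y : Fin 3 → F := M.symm x with hy'
    have hMy : M y = x := by rw [hy']; exact M.apply_symm_apply x
    have hsum : x i = ∑ j, y j * M (Pi.single j 1) i := by
      rw [← lin_apply, hMy]
    have h0 : ∑ j, y j * M (Pi.single j 1) i ≠ 0 := by rw [← hsum]; exact hxi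
    obtain ⟨j, -, hj0, hj⟩ := exists_le_of_sum (V := V) Finset.univ
      (fun j => y j * M (Pi.single j 1) i) h0
    rw [← hsum] at hj
    have hyj : y j ≠ 0 := left_ne_zero_of_mul hj0
    have hMj : M (Pi.single j 1) i ≠ 0 := right_ne_zero_of_mul hj0
    rw [V.mul' _ _ hyj hMj] at hj
    obtain ⟨hq0, hqle⟩ := hC y j hyj
    have hqx : q' y = m * q x := by rw [hq', hMy]
    have hqx0 : q x ≠ 0 := by
      intro h; rw [hqx, h, mul_zero] at hq0; exact hq0 rfl
    refine ⟨hqx0, ?_⟩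
    rw [hqx, V.mul' _ _ hm hqx0] at hqle
    have hD : |V.v (M (Pi.single j 1) i)|
        ≤ ∑ i : Fin 3, ∑ j : Fin 3, |V.v (M (Pi.single j 1) i)| := by
      refine le_trans ?_ (Finset.single_le_sum
        (f := fun i : Fin 3 => ∑ j : Fin 3, |V.v (M (Pi.single j 1) i)|)
        (fun i _ => Finset.sum_nonneg fun j _ => abs_nonneg _) (Finset.mem_univ i))
      exact Finset.single_le_sum (f := fun j : Fin 3 => |V.v (M (Pi.single j 1) i)|)
        (fun j _ => abs_nonneg _) (Finset.mem_univ j)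
    have h5 := neg_abs_le (V.v (M (Pi.single j 1) i))
    linarith
  · have hqx : q (M x) ≠ 0 := by
      intro h; rw [hq', h, mul_zero] at hx; exact hx rfl
    have hqy : q (M y) ≠ 0 := by
      intro h; rw [hq', h, mul_zero] at hy; exact hy rfl
    refine ⟨M x, M y, hqx, hqy, ?_⟩
    rw [hq', hq', V.mul' _ _ hm hqx, V.mul' _ _ hm hqy] at hpar
    intro hd
    apply hpar
    have : V.v m + V.v (q (M x)) - (V.v m + V.v (q (M y))) = V.v (q (M x)) - V.v (q (M y)) := by
      ring
    rw [this]; exact hd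

theorem valConst : ValConst.{u} := by
  intro k _ _ F _ _ V c hc
  by_contra h
  obtain ⟨d, hd⟩ := IsAlgClosed.exists_pow_nat_eq c (n := (V.v (algebraMap k F c)).natAbs + 1)
    (Nat.succ_pos _)
  have hd0 : d ≠ 0 := by
    rintro rfl
    rw [zero_pow (Nat.succ_ne_zero _)] at hd
    exact hc hd.symm
  have hd0' : algebraMap k F d ≠ 0 := by
    rw [Ne, map_eq_zero]; exact hd0
  have h1 : V.v (algebraMap k F c)
      = (((V.v (algebraMap k F c)).natAbs + 1 : ℕ) : ℤ) * V.v (algebraMap k F d) := by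
    conv_lhs => rw [← hd, map_pow]
    rw [v_pow V hd0']
  have h2 : (((V.v (algebraMap k F c)).natAbs + 1 : ℕ) : ℤ) ∣ V.v (algebraMap k F c) :=
    ⟨_, h1⟩
  have h3 := Int.natAbs_dvd_natAbs.mpr h2
  rw [Int.natAbs_natCast] at h3
  have h4 := Nat.le_of_dvd (Int.natAbs_pos.mpr h) h3
  omega

/-- transport of a valuation along an isomorphism -/
def ZVal.transport {F F' : Type u} [Field F] [Field F'] (e : F ≃+* F') (V : ZVal F) : ZVal F' where
  v x := V.v (e.symm x)
  mul' x y hx hy := by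
    rw [map_mul]
    exact V.mul' _ _ (by rw [Ne, map_eq_zero]; exact hx) (by rw [Ne, map_eq_zero]; exact hy)
  add' x y hx hy hxy := by
    rw [map_add]
    refine V.add' _ _ (by rw [Ne, map_eq_zero]; exact hx) (by rw [Ne, map_eq_zero]; exact hy) ?_
    rw [← map_add, Ne, map_eq_zero]; exact hxy

theorem dg_map {F F' : Type u} [Field F] [Field F'] (e : F ≃+* F') (a b c : F) (x : Fin 3 → F) :
    dg (e a) (e b) (e c) (fun i => e (x i)) = e (dg a b c x) := by
  unfold dg
  simp only [map_add, map_mul, map_pow]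

theorem ram_transport {F F' : Type u} [Field F] [Field F'] (e : F ≃+* F') (V : ZVal F)
    (a b c : F') (h : Ram V (dg (e.symm a) (e.symm b) (e.symm c))) :
    Ram (ZVal.transport e V) (dg a b c) := by
  obtain ⟨⟨C, hC⟩, x, y, hx, hy, hpar⟩ := h
  have key : ∀ x : Fin 3 → F, dg a b c (fun i => e (x i))
      = e (dg (e.symm a) (e.symm b) (e.symm c) x) := by
    intro x
    rw [← dg_map, e.apply_symm_apply, e.apply_symm_apply, e.apply_symm_apply]
  have key' : ∀ x : Fin 3 → F', e.symm (dg a b c x)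
      = dg (e.symm a) (e.symm b) (e.symm c) (fun i => e.symm (x i)) := by
    intro x
    rw [dg_map]
  constructor
  · refine ⟨C, fun x i hi => ?_⟩
    have h1 := hC (fun i => e.symm (x i)) i (by rw [Ne, map_eq_zero]; exact hi)
    rw [← key'] at h1
    refine ⟨fun h0 => h1.1 (by rw [h0, map_zero]), ?_⟩
    exact h1.2
  · refine ⟨fun i => e (x i), fun i => e (y i), ?_, ?_, ?_⟩
    · rw [key, Ne, map_eq_zero]; exact hx
    · rw [key, Ne, map_eq_zero]; exact hy
    · rw [key, key]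
      change ¬ (2 : ℤ) ∣ V.v (e.symm (e _)) - V.v (e.symm (e _))
      rw [e.symm_apply_apply, e.symm_apply_apply]
      exact hpar

theorem ppEquiv : PPEquiv.{u} := by
  intro F F' _ _ e hF a b c ha hb hc hV
  obtain ⟨x, hx0, hx⟩ := hF (e.symm a) (e.symm b) (e.symm c)
    (by rw [Ne, map_eq_zero]; exact ha) (by rw [Ne, map_eq_zero]; exact hb)
    (by rw [Ne, map_eq_zero]; exact hc) (fun V h => hV _ (ram_transport e V a b c h))
  refine ⟨fun i => e (x i), ?_, ?_⟩
  · intro h
    apply hx0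
    ext i
    have := congrFun h i
    simpa using this
  · have h1 := dg_map e (e.symm a) (e.symm b) (e.symm c) x
    rw [e.apply_symm_apply, e.apply_symm_apply, e.apply_symm_apply, hx, map_zero] at h1
    exact h1

end Pool.Agent.Helper46.RZ
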