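import Pool.Agent.Helper17.RZ.St4

/-!
RZ-D6a: forms in `x_s, y_s` of large degree belong to the ideal of `a_s ^ N, b_s ^ N`.
-/

set_option autoImplicit false

open MvPolynomial

namespace Pool.Agent.Helper46.RZ

open Pool.Agent.Helper17.RZ

universe u

noncomputable section

variable {k : Type u} [Field k]

theorem weight_single_wt (s : Fin 4) (c : Bool) (n : ℕ) :
    Finsupp.weight wt (Finsupp.single (s, c) n) = (Pi.single s n : Fin 4 → ℕ) := by
  rw [Finsupp.weight_apply, Finsupp.sum_single_index (by simp)]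
  funext t
  by_cases h : t = s
  · subst h; simp [wt]
  · simp [wt, Pi.single_eq_of_ne h]

theorem weight_wt_apply (m : Fin 4 × Bool →₀ ℕ) (s : Fin 4) :
    Finsupp.weight wt m s = m (s, false) + m (s, true) := by
  rw [Finsupp.weight_apply, Finsupp.sum_fintype _ _ (by simp)]
  rw [Fintype.sum_prod_type, Finset.sum_apply, Finset.sum_eq_single s]
  · simp [wt, add_comm]
  · intro t _ ht
    simp [wt, Pi.single_eq_of_ne (Ne.symm ht)]
  · intro h; exact absurd (Finset.mem_univ s) h

/-- the letter `a_s` -/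
theorem lt0 (s : Fin 4) : lt k s 0 = (X (s, false) ^ 2 + X (s, true) ^ 2) ^ 2 := rfl

/-- the letter `b_s` -/
theorem lt1 (s : Fin 4) : lt k s 1 = X (s, false) ^ 2 * X (s, true) ^ 2 := rfl

theorem sgl (s : Fin 4) (e : Fin 4 → ℕ) {a b c : ℕ} (h : c = a + b) :
    e + Pi.single s c = e + Pi.single s a + Pi.single s b := by
  subst h
  rw [Pi.single_add, add_assoc]

/-- one monomial -/
theorem mono_step (s : Fin 4) (m : Fin 4 × Bool →₀ ℕ) (r : k) (e : Fin 4 → ℕ)
    (hm : Finsupp.weight wt m = e + Pi.single s 4) (h7 : 3 ≤ e s) :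
    ∃ p q : SS k, IsWeightedHomogeneous wt p e ∧ IsWeightedHomogeneous wt q e ∧
      monomial m r = p * lt k s 0 + q * lt k s 1 := by
  have hdeg : m (s, false) + m (s, true) = e s + 4 := by
    rw [← weight_wt_apply, hm]; simp
  -- the general step for the case of a large power of the variable `(s, c)`
  have big : ∀ c : Bool, 6 ≤ m (s, c) → ∃ p q : SS k, IsWeightedHomogeneous wt p e ∧
      IsWeightedHomogeneous wt q e ∧
      monomial m r = p * (X (s, c) ^ 2 + X (s, !c) ^ 2) ^ 2 + q * (X (s, c) ^ 2 * X (s, !c) ^ 2) := by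
    intro c hc
    -- `m = m₁ + 6 δ_c`
    obtain ⟨m₁, hm₁⟩ : ∃ m₁, m = m₁ + Finsupp.single (s, c) 6 :=
      ⟨m - Finsupp.single (s, c) 6, (tsub_add_cancel_of_le (Finsupp.single_le_iff.2 hc)).symm⟩
    have hw : Finsupp.weight wt m₁ + Pi.single s 2 = e := by
      have h1 : Finsupp.weight wt m₁ + Pi.single s 6 = e + Pi.single s 4 := by
        rw [← hm, hm₁, map_add, weight_single_wt]
      funext t
      have h2 := congrFun h1 t
      by_cases ht : t = s
      · subst ht; simp at h2 ⊢; omega
      · simp [Pi.single_eq_of_ne ht] at h2 ⊢; exact h2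
    have hwX : ∀ c' : Bool, IsWeightedHomogeneous wt ((monomial m₁ r : SS k) * X (s, c') ^ 2) e := by
      intro c'
      have h1 : IsWeightedHomogeneous wt (monomial m₁ r : SS k) (Finsupp.weight wt m₁) :=
        isWeightedHomogeneous_monomial wt m₁ r rfl
      have h2 := h1.mul ((isWeightedHomogeneous_X k wt (s, c')).pow 2)
      have h3 : Finsupp.weight wt m₁ + 2 • wt (s, c') = e := by
        rw [← hw]; congr 1; funext t
        by_cases ht : t = s
        · subst ht; simp [wt]
        · simp [wt, Pi.single_eq_of_ne ht]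
      rwa [h3] at h2
    refine ⟨monomial m₁ r * X (s, c) ^ 2,
      -(C 2 * (monomial m₁ r * X (s, c) ^ 2)) - monomial m₁ r * X (s, !c) ^ 2, hwX c, ?_, ?_⟩
    · refine (weightedHomogeneousSubmodule k wt e).sub_mem
        ((weightedHomogeneousSubmodule k wt e).neg_mem ?_) (hwX _)
      rw [← smul_eq_C_mul]
      exact (weightedHomogeneousSubmodule k wt e).smul_mem _ (hwX c)
    · have h1 : monomial m r = monomial m₁ r * X (s, c) ^ 6 := by
        rw [hm₁, X_pow_eq_monomial, monomial_mul, mul_one]
      rw [h1]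
      have h2 : (C 2 : SS k) = 2 := map_ofNat C 2
      rw [h2]
      ring
  by_cases h1 : 6 ≤ m (s, false)
  · obtain ⟨p, q, hp, hq, h⟩ := big false h1
    exact ⟨p, q, hp, hq, h⟩
  by_cases h2 : 6 ≤ m (s, true)
  · obtain ⟨p, q, hp, hq, h⟩ := big true h2
    refine ⟨p, q, hp, hq, ?_⟩
    rw [h, lt0, lt1]
    simp only [Bool.not_true]
    ring
  -- both exponents are at least two
  have hf2 : 2 ≤ m (s, false) := by omega
  have ht2 : 2 ≤ m (s, true) := by omega
  obtain ⟨m₁, hm₁⟩ : ∃ m₁, m = m₁ + (Finsupp.single (s, false) 2 + Finsupp.single (s, true) 2) := by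
    refine ⟨m - (Finsupp.single (s, false) 2 + Finsupp.single (s, true) 2),
      (tsub_add_cancel_of_le ?_).symm⟩
    intro x
    rw [Finsupp.add_apply, Finsupp.single_apply, Finsupp.single_apply]
    split_ifs with ha hb hb
    · rw [← ha] at hb; simp at hb
    · rw [← ha]; omega
    · rw [← hb]; omega
    · omega
  refine ⟨0, monomial m₁ r, isWeightedHomogeneous_zero k wt _, ?_, ?_⟩
  · refine isWeightedHomogeneous_monomial wt m₁ r ?_
    have h1 : Finsupp.weight wt m₁ + (Pi.single s 2 + Pi.single s 2) = e + Pi.single s 4 := by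
      rw [← hm, hm₁, map_add, map_add, weight_single_wt, weight_single_wt]
    funext t
    have h2 := congrFun h1 t
    by_cases ht : t = s
    · subst ht; simp at h2 ⊢; omega
    · simp [Pi.single_eq_of_ne ht] at h2 ⊢; exact h2
  · rw [lt1, hm₁, X_pow_eq_monomial, X_pow_eq_monomial, monomial_mul, monomial_mul, zero_mul, zero_add,
      mul_one, mul_one]

/-- the case `N = 1` -/
theorem base_step (s : Fin 4) (g : SS k) (e : Fin 4 → ℕ)
    (hg : IsWeightedHomogeneous wt g (e + Pi.single s 4)) (h7 : 3 ≤ e s) :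
    ∃ p q : SS k, IsWeightedHomogeneous wt p e ∧ IsWeightedHomogeneous wt q e ∧
      g = p * lt k s 0 + q * lt k s 1 := by
  have key : ∀ m : Fin 4 × Bool →₀ ℕ, ∃ p q : SS k, IsWeightedHomogeneous wt p e ∧
      IsWeightedHomogeneous wt q e ∧ monomial m (coeff m g) = p * lt k s 0 + q * lt k s 1 := by
    intro m
    by_cases h0 : coeff m g = 0
    · exact ⟨0, 0, isWeightedHomogeneous_zero k wt _, isWeightedHomogeneous_zero k wt _, by simp [h0]⟩
    · exact mono_step s m _ e (hg h0) h7
  choose p q hp hq h using key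
  refine ⟨∑ m ∈ g.support, p m, ∑ m ∈ g.support, q m, ?_, ?_, ?_⟩
  · exact (weightedHomogeneousSubmodule k wt e).sum_mem fun m _ => hp m
  · exact (weightedHomogeneousSubmodule k wt e).sum_mem fun m _ => hq m
  · rw [Finset.sum_mul, Finset.sum_mul, ← Finset.sum_add_distrib]
    conv_lhs => rw [g.as_sum]
    exact Finset.sum_congr rfl fun m _ => h m

/-- `a, b ^ j` -/
theorem one_step (s : Fin 4) (j : ℕ) : ∀ (g : SS k) (e : Fin 4 → ℕ),
    IsWeightedHomogeneous wt g (e + Pi.single s (4 * (j + 1))) → 3 ≤ e s →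
    ∃ p q : SS k, IsWeightedHomogeneous wt p (e + Pi.single s (4 * j)) ∧
      IsWeightedHomogeneous wt q e ∧ g = p * lt k s 0 + q * lt k s 1 ^ (j + 1) := by
  induction j with
  | zero =>
    intro g e hg h
    obtain ⟨p, q, hp, hq, h1⟩ := base_step s g e hg h
    exact ⟨p, q, by simpa using hp, hq, by simpa using h1⟩
  | succ j ih =>
    intro g e hg h
    have e1 : e + Pi.single s (4 * (j + 1 + 1)) = (e + Pi.single s 4) + Pi.single s (4 * (j + 1)) :=
      sgl s e (by ring)
    rw [e1] at hg
    obtain ⟨p, q, hp, hq, h1⟩ := ih g (e + Pi.single s 4) hg (by rw [Pi.add_apply]; exact h.trans (Nat.le_add_right _ _))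
    obtain ⟨p', q', hp', hq', h2⟩ := base_step s q e hq h
    refine ⟨p + p' * lt k s 1 ^ (j + 1), q', ?_, hq', ?_⟩
    · have e2 : e + Pi.single s (4 * (j + 1)) = e + Pi.single s 4 + Pi.single s (4 * j) :=
        sgl s e (by ring)
      rw [e2]
      refine (weightedHomogeneousSubmodule k wt _).add_mem hp ?_
      have hb : IsWeightedHomogeneous wt (lt k s 1) (Pi.single s 4 : Fin 4 → ℕ) := by
        rw [lt1]
        have h3 := ((isWeightedHomogeneous_X k wt (s, false)).pow 2).mul
          ((isWeightedHomogeneous_X k wt (s, true)).pow 2)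
        have h4 : 2 • wt (s, false) + 2 • wt (s, true) = (Pi.single s 4 : Fin 4 → ℕ) := by
          funext t
          by_cases ht : t = s
          · subst ht; simp [wt]
          · simp [wt, Pi.single_eq_of_ne ht]
        rwa [h4] at h3
      have h5 := hp'.mul (hb.pow (j + 1))
      have h6 : e + (j + 1) • (Pi.single s 4 : Fin 4 → ℕ) = e + Pi.single s 4 + Pi.single s (4 * j) := by
        rw [add_assoc, ← Pi.single_add]; congr 1
        funext t
        by_cases ht : t = s
        · subst ht; simp; ring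
        · simp [Pi.single_eq_of_ne ht]
      rwa [h6] at h5
    · rw [h1, h2]; ring

/-- `a ^ i, b ^ j` -/
theorem two_step (s : Fin 4) (i j : ℕ) : ∀ (g : SS k) (e : Fin 4 → ℕ),
    IsWeightedHomogeneous wt g (e + Pi.single s (4 * (i + j + 1))) → 3 ≤ e s →
    ∃ p q : SS k, IsWeightedHomogeneous wt p (e + Pi.single s (4 * j)) ∧
      IsWeightedHomogeneous wt q (e + Pi.single s (4 * i)) ∧
      g = p * lt k s 0 ^ (i + 1) + q * lt k s 1 ^ (j + 1) := by
  induction i with
  | zero =>
    intro g e hg h
    obtain ⟨p, q, hp, hq, h1⟩ := one_step s j g e (by simpa using hg) h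
    exact ⟨p, q, hp, by simpa using hq, by simpa using h1⟩
  | succ i ih =>
    intro g e hg h
    have e1 : e + Pi.single s (4 * (i + 1 + j + 1)) =
        (e + Pi.single s 4) + Pi.single s (4 * (i + j + 1)) := sgl s e (by ring)
    rw [e1] at hg
    obtain ⟨p, q, hp, hq, h1⟩ := ih g (e + Pi.single s 4) hg (by rw [Pi.add_apply]; exact h.trans (Nat.le_add_right _ _))
    have e2 : e + Pi.single s 4 + Pi.single s (4 * j) = e + Pi.single s (4 * (j + 1)) :=
      (sgl s e (by ring)).symm
    rw [e2] at hp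
    obtain ⟨p', q', hp', hq', h2⟩ := one_step s j p e hp h
    refine ⟨p', q + q' * lt k s 0 ^ (i + 1), hp', ?_, ?_⟩
    · have e3 : e + Pi.single s (4 * (i + 1)) = e + Pi.single s 4 + Pi.single s (4 * i) :=
        sgl s e (by ring)
      rw [e3]
      refine (weightedHomogeneousSubmodule k wt _).add_mem hq ?_
      have ha : IsWeightedHomogeneous wt (lt k s 0) (Pi.single s 4 : Fin 4 → ℕ) := by
        rw [lt0]
        have h3 : ∀ c : Bool, IsWeightedHomogeneous wt (X (s, c) ^ 2 : SS k)
            (Pi.single s 2 : Fin 4 → ℕ) := by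
          intro c
          have h4 := (isWeightedHomogeneous_X k wt (s, c)).pow 2
          have h5 : 2 • wt (s, c) = (Pi.single s 2 : Fin 4 → ℕ) := by
            funext t
            by_cases ht : t = s
            · subst ht; simp [wt]
            · simp [wt, Pi.single_eq_of_ne ht]
          rwa [h5] at h4
        have h6 := ((weightedHomogeneousSubmodule k wt _).add_mem (h3 false) (h3 true))
        have h7 : IsWeightedHomogeneous wt (X (s, false) ^ 2 + X (s, true) ^ 2 : SS k)
          (Pi.single s 2 : Fin 4 → ℕ) := h6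
        have h8 := h7.pow 2
        have h9 : 2 • (Pi.single s 2 : Fin 4 → ℕ) = (Pi.single s 4 : Fin 4 → ℕ) := by
          funext t
          by_cases ht : t = s
          · subst ht; simp
          · simp [Pi.single_eq_of_ne ht]
        rwa [h9] at h8
      have h5 := hq'.mul (ha.pow (i + 1))
      have h6 : e + (i + 1) • (Pi.single s 4 : Fin 4 → ℕ) = e + Pi.single s 4 + Pi.single s (4 * i) := by
        rw [add_assoc, ← Pi.single_add]; congr 1
        funext t
        by_cases ht : t = s
        · subst ht; simp; ring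
        · simp [Pi.single_eq_of_ne ht]
      rwa [h6] at h5
    · rw [h1, h2]; ring

theorem bigDeg : BigDeg.{u} := by
  intro k _ _ s N g f hg hf hN
  obtain ⟨M, rfl⟩ : ∃ M, N = M + 1 := ⟨N - 1, by omega⟩
  obtain ⟨e, he⟩ : ∃ e : Fin 4 → ℕ, f = e + Pi.single s (4 * (M + M + 1)) := by
    refine ⟨f - Pi.single s (4 * (M + M + 1)), (tsub_add_cancel_of_le ?_).symm⟩
    intro t
    by_cases ht : t = s
    · subst ht; simp; omega
    · simp [Pi.single_eq_of_ne ht]
  have hes : 3 ≤ e s := by
    have := congrFun he s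
    simp at this
    omega
  rw [he] at hg
  obtain ⟨p, q, hp, hq, h⟩ := two_step s M M g e hg hes
  refine ⟨p, q, e + Pi.single s (4 * M), ?_, hp, hq, h⟩
  rw [he]
  exact sgl s e (by ring)

end

end Pool.Agent.Helper46.RZ
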