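import Pool.Agent.Helper17.RZ.St3

/-! RZ-C6: sums of line bundles. -/

set_option autoImplicit false

namespace Pool.Agent.Helper46.RZ

open Pool.Agent.Helper17.RZ

universe u

variable {k : Type u} [Field k] {K : Type u} [Field K] [Algebra k K] {Z : ProjVar k K}

theorem lines_isDeg {ι κ : Type} [Fintype ι] [Fintype κ] (u : ι → Z.I → K) (hu : ∀ e i, u e i ≠ 0)
    (hc : ∀ e i j, u e i / u e j ∈ Z.A {i, j}) (u' : κ → Z.I → K) (hu' : ∀ e i, u' e i ≠ 0)
    (hc' : ∀ e i j, u' e i / u' e j ∈ Z.A {i, j}) (φ : (ι → K) →ₗ[K] (κ → K)) :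
    IsDeg (X := (Z.lines ι u hu hc).toGrD) (Y := (Z.lines κ u' hu' hc').toGrD) 0 φ := by
  intro j
  change φ ∘ₗ (if j = 0 then LinearMap.id else 0) = (if j + 0 = 0 then LinearMap.id else 0) ∘ₗ φ
  by_cases h : j = 0
  · subst h; simp
  · simp [h]

theorem lines_d {ι κ : Type} [Fintype ι] [Fintype κ] (u : ι → Z.I → K) (hu : ∀ e i, u e i ≠ 0)
    (hc : ∀ e i j, u e i / u e j ∈ Z.A {i, j}) (u' : κ → Z.I → K) (hu' : ∀ e i, u' e i ≠ 0)
    (hc' : ∀ e i j, u' e i / u' e j ∈ Z.A {i, j}) (φ : (ι → K) →ₗ[K] (κ → K)) :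
    φ ∘ₗ (Z.lines ι u hu hc).d = (Z.lines κ u' hu' hc').d ∘ₗ φ := by
  change φ ∘ₗ (0 : (ι → K) →ₗ[K] (ι → K)) = (0 : (κ → K) →ₗ[K] (κ → K)) ∘ₗ φ
  rw [LinearMap.comp_zero, LinearMap.zero_comp]

theorem linesSummand (hI : IsoRetr.{u}) : LinesSummand.{u} := by
  intro k _ K _ _ Z E ι _ u hu hc hT e
  classical
  refine Thick.retract _ _ hT ?_
  refine hI k K Z _ _ ((LinearMap.single K (fun _ : ι => K) e) ∘ₗ (LinearMap.proj (0 : Fin 1)))
    (LinearMap.pi (fun _ => LinearMap.proj e)) (lines_isDeg _ _ _ _ _ _ _) (lines_isDeg _ _ _ _ _ _ _)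
    ?_ ?_ ?_ ?_ ?_
  · exact lines_d _ _ _ _ _ _ _
  · exact lines_d _ _ _ _ _ _ _
  · intro σ _ y hy e' i hi'
    change (Pi.single e (y 0) : ι → K) e' / u e' i ∈ Z.A σ
    by_cases h : e' = e
    · subst h; rw [Pi.single_eq_same]; exact hy 0 i hi'
    · rw [Pi.single_eq_of_ne h, zero_div]; exact (Z.A σ).zero_mem
  · intro σ _ x hx e' i hi'
    exact hx e i hi'
  · apply LinearMap.ext
    intro y
    change (fun _ : Fin 1 => (Pi.single e (y 0) : ι → K) e) = y
    funext j
    rw [Pi.single_eq_same, Subsingleton.elim j 0]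

theorem linesThick (hI : IsoRetr.{u}) : LinesThick.{u} := by
  intro k _ K _ _ Z E ι _ u hu hc hT
  revert u hu hc hT
  refine Fintype.induction_empty_option (P := fun (ι : Type) [Fintype ι] =>
    ∀ (u : ι → Z.I → K) (hu : ∀ e i, u e i ≠ 0)
    (hc : ∀ e i j, u e i / u e j ∈ Z.A {i, j}),
    (∀ e, Thick E (Z.lines (Fin 1) (fun _ => u e) (fun _ => hu e) (fun _ => hc e))) →
    Thick E (Z.lines ι u hu hc)) ?_ ?_ ?_ ι
  · intro α β _ e ih u hu hc hT
    let _ : Fintype α := Fintype.ofEquiv β e.symm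
    have h1 := ih (fun a => u (e a)) (fun a => hu (e a)) (fun a => hc (e a)) (fun a => hT (e a))
    refine Thick.retract _ _ h1 ?_
    refine hI k K Z _ _ (LinearMap.funLeft K K e) (LinearMap.funLeft K K e.symm)
      (lines_isDeg _ _ _ _ _ _ _) (lines_isDeg _ _ _ _ _ _ _) ?_ ?_ ?_ ?_ ?_
    · exact lines_d _ _ _ _ _ _ _
    · exact lines_d _ _ _ _ _ _ _
    · intro σ _ y hy a i hi'
      exact hy (e a) i hi'
    · intro σ _ x hx b i hi'
      have := hx (e.symm b) i hi'
      simp only [Equiv.apply_symm_apply] at this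
      exact this
    · apply LinearMap.ext
      intro y
      change (fun b => y (e (e.symm b))) = y
      funext b
      rw [Equiv.apply_symm_apply]
  · intro u hu hc _
    refine Thick.retract _ _ Thick.base ?_
    refine hI k K Z _ _ 0 0 IsDeg.zero IsDeg.zero ?_ ?_ ?_ ?_ ?_
    · rw [LinearMap.zero_comp, LinearMap.comp_zero]
    · rw [LinearMap.zero_comp, LinearMap.comp_zero]
    · intro σ _ y _
      exact (E.lat σ).zero_mem
    · intro σ _ x _ a
      exact a.elim
    · apply LinearMap.ext
      intro y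
      exact funext fun a => a.elim
  · intro α _ ih u hu hc hT
    have h1 := ih (fun a => u (some a)) (fun a => hu (some a)) (fun a => hc (some a))
      (fun a => hT (some a))
    have h0 := hT none
    refine Thick.ses₂ _ _ _ ?_ h0 h1
    refine ⟨LinearMap.pi (fun o : Option α => o.elim (LinearMap.proj (0 : Fin 1)) (fun _ => 0)),
      LinearMap.funLeft K K some, lines_isDeg _ _ _ _ _ _ _, lines_isDeg _ _ _ _ _ _ _, ?_, ?_,
      ?_, ?_, ?_, ?_⟩
    · exact lines_d _ _ _ _ _ _ _
    · exact lines_d _ _ _ _ _ _ _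
    · intro x y hxy
      have := congrFun hxy none
      change x 0 = y 0 at this
      change (x : Fin 1 → K) = y
      funext j
      rw [Subsingleton.elim j 0]
      exact this
    · intro w
      refine ⟨fun o : Option α => o.elim 0 w, ?_⟩
      rfl
    · intro y
      constructor
      · intro hy
        refine ⟨fun _ => y none, ?_⟩
        change (fun o : Option α => _) = y
        funext o
        cases o with
        | none => rfl
        | some a =>
          have := congrFun hy a
          change y (some a) = 0 at this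
          rw [this]
          rfl
      · rintro ⟨x, rfl⟩
        rfl
    · intro σ _
      refine ⟨fun x => ⟨fun hx j i hi' => ?_, fun hx o i hi' => ?_⟩, fun w => ⟨fun hw => ?_, ?_⟩⟩
      · have := hx none i hi'
        rw [Subsingleton.elim j 0]
        exact this
      · cases o with
        | none => exact hx 0 i hi'
        | some a =>
          change (0 : K) / u (some a) i ∈ Z.A σ
          rw [zero_div]; exact (Z.A σ).zero_mem
      · refine ⟨fun o : Option α => o.elim 0 w, ?_, rfl⟩
        intro o i hi'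
        cases o with
        | none =>
          change (0 : K) / u none i ∈ Z.A σ
          rw [zero_div]; exact (Z.A σ).zero_mem
        | some a => exact hw a i hi'
      · rintro ⟨y, hy, rfl⟩ a i hi'
        exact hy (some a) i hi'

end Pool.Agent.Helper46.RZ
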